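import Pool.Agent.Lib.MP_293cc0_an.E.Star

/-!
# MP_293cc0_an, Theorem A (dead windows): renewal of tokens

The roots `l a` are tokens; in a column `v` of the window the highest token is replaced by `v`, the function of `v` (a star
at `v` with all tokens) serves the old token for ever. If in the columns `v ∈ H a` the root `l a` lies above all elements
of the window, every root with more than `g` such columns is replaced.
-/

set_option autoImplicit false

namespace Pool.Agent.Lib.MP_293cc0_an.A

open Finset

variable {X : Type} [MetricSpace X] {N : ℕ}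

/-- State of the renewal before column `n`: `V` the columns used, `R` the renewed roots, `tok` the tokens. -/
structure RState (C : Comb X N) (g : ℕ) (l : Fin (g + 1) → ℕ) (W : Finset ℕ)
    (H : Fin (g + 1) → Finset ℕ) (n : ℕ) (V : Finset ℕ) (R : Finset (Fin (g + 1)))
    (tok : Fin (g + 1) → ℕ) : Prop where
  sub : V ⊆ W
  lt : ∀ v ∈ V, v < n
  card : V.card = R.card
  old : ∀ a, a ∉ R → tok a = l a
  new : ∀ a ∈ R, tok a ∈ V
  all : ∀ a, a ∉ R → ∀ v ∈ H a, v < n → v ∈ V
  cov : ∀ S' : Finset ℕ, (∀ t ∈ S', n ≤ t ∧ t < N) → ∃ F : V → IPF C,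
    (∀ v ∈ V, ∀ u, (u ∈ V ∨ ∃ a, u = l a) → u < v → ∃ i, (F i).cov u v) ∧
    (∀ t ∈ S', ∀ u, (u ∈ V ∨ ∃ a, u = l a) → (∀ a, tok a ≠ u) → ∃ i, (F i).cov u t)

theorem RState.start (C : Comb X N) (g : ℕ) (l : Fin (g + 1) → ℕ) (W : Finset ℕ)
    (H : Fin (g + 1) → Finset ℕ) : RState C g l W H 0 ∅ ∅ l where
  sub := Finset.empty_subset _
  lt := by simp
  card := rfl
  old := fun _ _ => rfl
  new := by simp
  all := fun a _ v _ hv => absurd hv (Nat.not_lt_zero _)
  cov := by
    intro S' _
    refine ⟨fun i => absurd i.2 (Finset.notMem_empty _), ?_, ?_⟩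
    · intro v hv; exact absurd hv (Finset.notMem_empty _)
    · intro t _ u hu hne
      rcases hu with hu | ⟨a, rfl⟩
      · exact absurd hu (Finset.notMem_empty _)
      · exact absurd rfl (hne a)

theorem RState.step {C : Comb X N} {g : ℕ} {l : Fin (g + 1) → ℕ} {W : Finset ℕ}
    {H : Fin (g + 1) → Finset ℕ} {n : ℕ} {V : Finset ℕ} {R : Finset (Fin (g + 1))}
    {tok : Fin (g + 1) → ℕ} (h : RState C g l W H n V R tok)
    (hlW : ∀ a, ∀ v ∈ W, l a < v) (hWN : ∀ v ∈ W, v < N)
    (hHW : ∀ a, H a ⊆ W)
    (hH : ∀ a, ∀ v ∈ H a, ∀ v' ∈ W, v' < v → C.e v' v < C.e (l a) v) :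
    ∃ V' R' tok', RState C g l W H (n + 1) V' R' tok' := by
  classical
  by_cases hex : ∃ a, a ∉ R ∧ n ∈ H a
  swap
  · refine ⟨V, R, tok, h.sub, fun v hv => Nat.lt_succ_of_lt (h.lt v hv), h.card, h.old, h.new, ?_, ?_⟩
    · intro a ha v hv hvn
      rcases Nat.lt_succ_iff_lt_or_eq.1 hvn with h1 | h1
      · exact h.all a ha v hv h1
      · subst h1
        exact absurd ⟨a, ha, hv⟩ hex
    · intro S' hS'
      exact h.cov S' (fun t ht => ⟨le_trans (Nat.le_succ n) (hS' t ht).1, (hS' t ht).2⟩)
  obtain ⟨a₀, ha₀, hn₀⟩ := hex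
  have hnW : n ∈ W := hHW a₀ hn₀
  have hnN : n < N := hWN n hnW
  have hnV : n ∉ V := fun h' => lt_irrefl n (h.lt n h')
  -- the highest token
  obtain ⟨b, -, hb⟩ := Finset.exists_max_image (Finset.univ : Finset (Fin (g + 1)))
    (fun a => C.e (tok a) n) ⟨a₀, Finset.mem_univ _⟩
  have hbR : b ∉ R := by
    intro hb'
    have h1 := h.new b hb'
    have h2 := hH a₀ n hn₀ (tok b) (h.sub h1) (h.lt _ h1)
    have h3 := hb a₀ (Finset.mem_univ _)
    rw [h.old a₀ ha₀] at h3
    exact absurd h2 (not_lt.2 h3)
  have htoklt : ∀ a, tok a < n := by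
    intro a
    by_cases ha : a ∈ R
    · exact h.lt _ (h.new a ha)
    · rw [h.old a ha]; exact hlW a n hnW
  have htokb : tok b = l b := h.old b hbR
  refine ⟨insert n V, insert b R, Function.update tok b n, ?_, ?_, ?_, ?_, ?_, ?_, ?_⟩
  · intro v hv
    rcases Finset.mem_insert.1 hv with rfl | hv
    · exact hnW
    · exact h.sub hv
  · intro v hv
    rcases Finset.mem_insert.1 hv with rfl | hv
    · exact Nat.lt_succ_self _
    · exact Nat.lt_succ_of_lt (h.lt v hv)
  · rw [Finset.card_insert_of_notMem hnV, Finset.card_insert_of_notMem hbR, h.card]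
  · intro a ha
    have h1 : a ≠ b := fun e => ha (by rw [e]; exact Finset.mem_insert_self _ _)
    have h2 : a ∉ R := fun e => ha (Finset.mem_insert_of_mem e)
    rw [Function.update_of_ne h1]
    exact h.old a h2
  · intro a ha
    by_cases h1 : a = b
    · subst h1
      rw [Function.update_self]
      exact Finset.mem_insert_self _ _
    · rw [Function.update_of_ne h1]
      rcases Finset.mem_insert.1 ha with h2 | h2
      · exact absurd h2 h1
      · exact Finset.mem_insert_of_mem (h.new a h2)
  · intro a ha v hv hvn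
    have h2 : a ∉ R := fun e => ha (Finset.mem_insert_of_mem e)
    rcases Nat.lt_succ_iff_lt_or_eq.1 hvn with h1 | h1
    · exact Finset.mem_insert_of_mem (h.all a h2 v hv h1)
    · rw [h1]; exact Finset.mem_insert_self _ _
  · intro S' hS'
    obtain ⟨F, hF1, hF2⟩ := h.cov (insert n S') (by
      intro t ht
      rcases Finset.mem_insert.1 ht with rfl | ht
      · exact ⟨le_rfl, hnN⟩
      · exact ⟨le_trans (Nat.le_succ n) (hS' t ht).1, (hS' t ht).2⟩)
    obtain ⟨f, hf1, hf2⟩ := E.star (C := C) (t₀ := n) hnN (Finset.univ.image tok)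
      (by
        intro u hu
        obtain ⟨a, -, rfl⟩ := Finset.mem_image.1 hu
        exact htoklt a) (z := tok b) (Finset.mem_image_of_mem _ (Finset.mem_univ _))
      (by
        intro u hu
        obtain ⟨a, -, rfl⟩ := Finset.mem_image.1 hu
        exact hb a (Finset.mem_univ _)) (fun _ => some true)
      (by
        intro c c' _ _ _ _ _ hne
        exact absurd rfl hne)
    refine ⟨fun i => if hi : i.1 ∈ V then F ⟨i.1, hi⟩ else f, ?_, ?_⟩
    · intro v hv0 u hu huv
      rcases Finset.mem_insert.1 hv0 with rfl | hv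
      · -- column `n`
        by_cases htu : ∃ a, tok a = u
        · obtain ⟨a, rfl⟩ := htu
          refine ⟨⟨v, Finset.mem_insert_self _ _⟩, ?_⟩
          beta_reduce
          rw [dif_neg hnV]
          exact hf1 _ (Finset.mem_image_of_mem _ (Finset.mem_univ _))
        · have hu' : u ∈ V ∨ ∃ a, u = l a := by
            rcases hu with hu | hu
            · rcases Finset.mem_insert.1 hu with rfl | hu
              · exact absurd huv (lt_irrefl _)
              · exact Or.inl hu
            · exact Or.inr hu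
          obtain ⟨i, hi⟩ := hF2 v (Finset.mem_insert_self _ _) u hu' (fun a ha => htu ⟨a, ha⟩)
          refine ⟨⟨i.1, Finset.mem_insert_of_mem i.2⟩, ?_⟩
          beta_reduce
          rw [dif_pos i.2]
          exact hi
      · have hu' : u ∈ V ∨ ∃ a, u = l a := by
          rcases hu with hu | hu
          · rcases Finset.mem_insert.1 hu with h1 | hu
            · rw [h1] at huv
              exact absurd (h.lt v hv) (not_lt.2 huv.le)
            · exact Or.inl hu
          · exact Or.inr hu
        obtain ⟨i, hi⟩ := hF1 v hv u hu' huv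
        refine ⟨⟨i.1, Finset.mem_insert_of_mem i.2⟩, ?_⟩
        beta_reduce
        rw [dif_pos i.2]
        exact hi
    · intro t ht u hu hne
      have hnt : n < t := (hS' t ht).1
      by_cases hub : u = tok b
      · refine ⟨⟨n, Finset.mem_insert_self _ _⟩, ?_⟩
        beta_reduce
        rw [dif_neg hnV, hub]
        exact (hf2 t hnt (hS' t ht).2).1 rfl
      · have hun : u ≠ n := by
          intro e
          exact hne b (by rw [Function.update_self, e])
        have hu' : u ∈ V ∨ ∃ a, u = l a := by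
          rcases hu with hu | hu
          · rcases Finset.mem_insert.1 hu with h1 | hu
            · exact absurd h1 hun
            · exact Or.inl hu
          · exact Or.inr hu
        obtain ⟨i, hi⟩ := hF2 t (Finset.mem_insert_of_mem ht) u hu' (by
          intro a ha
          by_cases hab : a = b
          · exact hub (by rw [← ha, hab])
          · exact hne a (by rw [Function.update_of_ne hab]; exact ha))
        refine ⟨⟨i.1, Finset.mem_insert_of_mem i.2⟩, ?_⟩
        beta_reduce
        rw [dif_pos i.2]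
        exact hi

/-- After the window all roots are renewed. -/
theorem renew {C : Comb X N} {g : ℕ} {l : Fin (g + 1) → ℕ} {W : Finset ℕ}
    {H : Fin (g + 1) → Finset ℕ} (n₀ : ℕ) (hWn : ∀ v ∈ W, v < n₀)
    (hlW : ∀ a, ∀ v ∈ W, l a < v) (hWN : ∀ v ∈ W, v < N)
    (hHW : ∀ a, H a ⊆ W) (hHc : ∀ a, g + 1 ≤ (H a).card)
    (hH : ∀ a, ∀ v ∈ H a, ∀ v' ∈ W, v' < v → C.e v' v < C.e (l a) v) :
    ∃ V tok, V.card = g + 1 ∧ (∀ a, tok a ∈ V) ∧
      RState C g l W H n₀ V Finset.univ tok := by
  classical
  have key : ∀ n, ∃ V R tok, RState C g l W H n V R tok := by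
    intro n
    induction n with
    | zero => exact ⟨∅, ∅, l, RState.start C g l W H⟩
    | succ n ih =>
      obtain ⟨V, R, tok, h⟩ := ih
      exact h.step hlW hWN hHW hH
  obtain ⟨V, R, tok, h⟩ := key n₀
  have hR : R = Finset.univ := by
    by_contra hne
    obtain ⟨a, ha⟩ : ∃ a, a ∉ R := by
      by_contra hall
      push Not at hall
      exact hne (Finset.eq_univ_iff_forall.2 hall)
    have h1 : H a ⊆ V := fun v hv => h.all a ha v hv (hWn v (hHW a hv))
    have h2 : g + 1 ≤ R.card := by
      rw [← h.card]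
      exact le_trans (hHc a) (Finset.card_le_card h1)
    have h3 : R.card < (Finset.univ : Finset (Fin (g + 1))).card :=
      Finset.card_lt_card ((Finset.ssubset_univ_iff).2 hne)
    rw [Finset.card_univ, Fintype.card_fin] at h3
    omega
  subst hR
  refine ⟨V, tok, ?_, fun a => h.new a (Finset.mem_univ _), h⟩
  rw [h.card, Finset.card_univ, Fintype.card_fin]

end Pool.Agent.Lib.MP_293cc0_an.A
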