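import Pool.Agent.Lib.MP_293cc0_an.E.Finish
import Pool.Agent.Lib.MP_293cc0_an.A.Renew

/-!
# MP_293cc0_an, Theorem A (dead windows)

`n + 1` windows with at least `2 n g + 1` points, such that `e x v ≤ e v t` for `x < v` in one window and `t` in a later
window (nothing else is assumed about the types): savings `g + 1`, or one point `q i` in each of the first `n` windows such
that `e (q j) (q i) ≤ e (q i) (q k)` for `j < i < k`.
-/

set_option autoImplicit false

namespace Pool.Agent.Lib.MP_293cc0_an.A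

open Finset

variable {X : Type} [MetricSpace X] {N : ℕ}

/-- The roots `l`, the window `W` in which they are renewed, the hosts `z`. -/
theorem sav_of_renew {C : Comb X N} {g : ℕ} (hg : 1 ≤ g) (l : Fin (g + 1) → ℕ)
    (hl : StrictMono l) {W : Finset ℕ}
    {H : Fin (g + 1) → Finset ℕ} (hlW : ∀ a, ∀ v ∈ W, l a < v)
    (hHW : ∀ a, H a ⊆ W) (hHc : ∀ a, g + 1 ≤ (H a).card)
    (hH : ∀ a, ∀ v ∈ H a, ∀ v' ∈ W, v' < v → C.e v' v < C.e (l a) v)
    (z : Fin g → ℕ) (hz : StrictMono z) (hzN : ∀ a, z a < N) (hWz : ∀ v ∈ W, ∀ a, v < z a)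
    (hL : ∀ b a, b < a → ∀ y ∈ W, C.e (l b) (l a) ≤ C.e (l a) y)
    (hLz : ∀ b a, b < a → ∀ c, C.e (l b) (l a) ≤ C.e (l a) (z c)) : Sav X (g + 1) := by
  classical
  have z0 : Fin g := ⟨0, hg⟩
  have hWN : ∀ v ∈ W, v < N := fun v hv => lt_trans (hWz v hv z0) (hzN z0)
  obtain ⟨V, tok, hVc, htok, hst⟩ := renew (z ⟨0, hg⟩) (fun v hv => hWz v hv _) hlW hWN hHW hHc hH
  have hz0 : ∀ a, z ⟨0, hg⟩ ≤ z a := fun a => hz.monotone (Fin.mk_le_of_le_val (Nat.zero_le _))
  have hlz : ∀ a c, l a < z c := by
    intro a c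
    have h1 := hst.sub (htok a)
    exact lt_trans (hlW a _ h1) (hWz _ h1 c)
  have hVlt : ∀ v ∈ V, ∀ a, v < z a := fun v hv a => hWz v (hst.sub hv) a
  have hlV : ∀ a, ∀ v ∈ V, l a < v := fun a v hv => hlW a v (hst.sub hv)
  -- the functions of `V`, serving at the hosts
  obtain ⟨F, hF1, hF2⟩ := hst.cov (Finset.univ.image z) (by
    intro t ht
    obtain ⟨a, -, rfl⟩ := Finset.mem_image.1 ht
    exact ⟨hz0 a, hzN a⟩)
  -- the hosts
  have hhost : ∀ a : Fin g, ∃ f : IPF C,
      (∀ x ∈ (Finset.univ.filter (fun b => b < a.succ)).image l, f.cov x (l a.succ)) ∧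
      ∀ y ∈ Finset.univ.image tok ∪ (Finset.univ.filter (fun b => b < a)).image z,
        f.cov y (z a) := by
    intro a
    apply E.host
    · intro x hx
      obtain ⟨b, hb, rfl⟩ := Finset.mem_image.1 hx
      exact hl (Finset.mem_filter.1 hb).2
    · exact hzN a
    · intro y hy
      rcases Finset.mem_union.1 hy with hy | hy
      · obtain ⟨b, -, rfl⟩ := Finset.mem_image.1 hy
        exact ⟨hlV _ _ (htok b), hVlt _ (htok b) a⟩
      · obtain ⟨b, hb, rfl⟩ := Finset.mem_image.1 hy
        exact ⟨hlz _ _, hz (Finset.mem_filter.1 hb).2⟩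
    · exact ⟨tok 0, Finset.mem_union_left _ (Finset.mem_image_of_mem _ (Finset.mem_univ _))⟩
    · intro x hx y hy
      obtain ⟨b, hb, rfl⟩ := Finset.mem_image.1 hx
      have hb' := (Finset.mem_filter.1 hb).2
      rcases Finset.mem_union.1 hy with hy | hy
      · obtain ⟨c, -, rfl⟩ := Finset.mem_image.1 hy
        exact hL b _ hb' _ (hst.sub (htok c))
      · obtain ⟨c, hc, rfl⟩ := Finset.mem_image.1 hy
        exact hLz b _ hb' c
  choose G hG1 hG2 using hhost
  refine E.sav_of_family ((Finset.univ.image l ∪ V) ∪ Finset.univ.image z) ?_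
    (ι := V ⊕ Fin g) (g + 1) ?_ (Sum.elim F G) ?_
  · intro u hu
    rcases Finset.mem_union.1 hu with hu | hu
    · rcases Finset.mem_union.1 hu with hu | hu
      · obtain ⟨a, -, rfl⟩ := Finset.mem_image.1 hu
        exact lt_trans (hlz a z0) (hzN z0)
      · exact hWN u (hst.sub hu)
    · obtain ⟨a, -, rfl⟩ := Finset.mem_image.1 hu
      exact hzN a
  · rw [Finset.card_union_of_disjoint, Finset.card_union_of_disjoint,
      Finset.card_image_of_injective _ hl.injective, Finset.card_image_of_injective _ hz.injective,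
      hVc, Fintype.card_sum, Fintype.card_coe, hVc]
    · simp only [Finset.card_univ, Fintype.card_fin]
      omega
    · rw [Finset.disjoint_left]
      intro u hu hu'
      obtain ⟨a, -, rfl⟩ := Finset.mem_image.1 hu
      exact absurd (hlV a _ hu') (lt_irrefl _)
    · rw [Finset.disjoint_left]
      intro u hu hu'
      obtain ⟨a, -, rfl⟩ := Finset.mem_image.1 hu'
      rcases Finset.mem_union.1 hu with hu | hu
      · obtain ⟨b, -, hb⟩ := Finset.mem_image.1 hu
        exact absurd (hlz b a) (by rw [hb]; exact lt_irrefl _)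
      · exact absurd (hVlt _ hu a) (lt_irrefl _)
  · intro u hu v hv huv
    rcases Finset.mem_union.1 hv with hv | hv
    · rcases Finset.mem_union.1 hv with hv | hv
      · -- `v` a root
        obtain ⟨a, -, rfl⟩ := Finset.mem_image.1 hv
        have hu' : ∃ b, u = l b := by
          rcases Finset.mem_union.1 hu with hu | hu
          · rcases Finset.mem_union.1 hu with hu | hu
            · obtain ⟨b, -, rfl⟩ := Finset.mem_image.1 hu
              exact ⟨b, rfl⟩
            · exact absurd (hlV a _ hu) (not_lt.2 huv.le)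
          · obtain ⟨b, -, rfl⟩ := Finset.mem_image.1 hu
            exact absurd (hlz a b) (not_lt.2 huv.le)
        obtain ⟨b, rfl⟩ := hu'
        have hba : b < a := hl.lt_iff_lt.1 huv
        obtain ⟨c, rfl⟩ : ∃ c : Fin g, a = c.succ := by
          refine ⟨a.pred ?_, (Fin.succ_pred a _).symm⟩
          intro h0
          rw [h0] at hba
          exact absurd hba (Fin.not_lt_zero b)
        exact ⟨Sum.inr c, hG1 c _ (Finset.mem_image_of_mem _ (Finset.mem_filter.2
          ⟨Finset.mem_univ _, hba⟩))⟩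
      · have hu' : u ∈ V ∨ ∃ a, u = l a := by
          rcases Finset.mem_union.1 hu with hu | hu
          · rcases Finset.mem_union.1 hu with hu | hu
            · obtain ⟨b, -, rfl⟩ := Finset.mem_image.1 hu
              exact Or.inr ⟨b, rfl⟩
            · exact Or.inl hu
          · obtain ⟨b, -, rfl⟩ := Finset.mem_image.1 hu
            exact absurd (hVlt v hv b) (not_lt.2 huv.le)
        obtain ⟨i, hi⟩ := hF1 v hv u hu' huv
        exact ⟨Sum.inl i, hi⟩
    · obtain ⟨a, -, rfl⟩ := Finset.mem_image.1 hv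
      by_cases htu : ∃ b, tok b = u
      · obtain ⟨b, rfl⟩ := htu
        exact ⟨Sum.inr a, hG2 a _ (Finset.mem_union_left _
          (Finset.mem_image_of_mem _ (Finset.mem_univ _)))⟩
      · rcases Finset.mem_union.1 hu with hu | hu
        · have hu' : u ∈ V ∨ ∃ a, u = l a := by
            rcases Finset.mem_union.1 hu with hu | hu
            · obtain ⟨b, -, rfl⟩ := Finset.mem_image.1 hu
              exact Or.inr ⟨b, rfl⟩
            · exact Or.inl hu
          obtain ⟨i, hi⟩ := hF2 (z a) (Finset.mem_image_of_mem _ (Finset.mem_univ _)) u hu'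
            (fun b hb => htu ⟨b, hb⟩)
          exact ⟨Sum.inl i, hi⟩
        · obtain ⟨b, -, rfl⟩ := Finset.mem_image.1 hu
          have hba : b < a := hz.lt_iff_lt.1 huv
          exact ⟨Sum.inr a, hG2 a _ (Finset.mem_union_right _ (Finset.mem_image_of_mem _
            (Finset.mem_filter.2 ⟨Finset.mem_univ _, hba⟩)))⟩

/-- A finite set with `k` elements contains an increasing sequence of length `k`. -/
theorem exists_seq {A : Finset ℕ} {k : ℕ} (h : k ≤ A.card) :
    ∃ f : Fin k → ℕ, StrictMono f ∧ ∀ i, f i ∈ A := by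
  obtain ⟨B, hBA, hB⟩ := Finset.exists_subset_card_eq h
  refine ⟨fun i => B.orderEmbOfFin hB i, (B.orderEmbOfFin hB).strictMono, fun i => ?_⟩
  exact hBA (Finset.orderEmbOfFin_mem _ _ _)

/-- **Theorem A (dead windows).** -/
theorem dead_windows {C : Comb X N} (n g : ℕ) (hg : 1 ≤ g) (hn : 1 ≤ n) (Θ : ℕ → Finset ℕ)
    (hN : ∀ i ≤ n, ∀ x ∈ Θ i, x < N)
    (hsep : ∀ i j, i < j → j ≤ n → ∀ x ∈ Θ i, ∀ y ∈ Θ j, x < y)
    (hcard : ∀ i ≤ n, 2 * n * g + 1 ≤ (Θ i).card)
    (hdead : ∀ i j, i < j → j ≤ n → ∀ x ∈ Θ i, ∀ v ∈ Θ i, x < v → ∀ t ∈ Θ j, C.e x v ≤ C.e v t) :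
    Sav X (g + 1) ∨ ∃ q : ℕ → ℕ, (∀ i < n, q i ∈ Θ i) ∧
      ∀ j i k, j < i → i < k → k < n → C.e (q j) (q i) ≤ C.e (q i) (q k) := by
  classical
  -- heavy neighbours of `x` in the window `j`
  obtain ⟨Hv, hHv⟩ : ∃ Hv : ℕ → ℕ → Finset ℕ, ∀ j x v, v ∈ Hv j x ↔ v ∈ Θ j ∧
      ∃ k, j < k ∧ k ≤ n ∧ ∃ t ∈ Θ k, C.e v t < C.e x v :=
    ⟨fun j x => (Θ j).filter (fun v => ∃ k, j < k ∧ k ≤ n ∧ ∃ t ∈ Θ k, C.e v t < C.e x v),
      fun j x v => by rw [Finset.mem_filter]⟩
  obtain ⟨Rich, hRich⟩ : ∃ Rich : ℕ → ℕ → Finset ℕ, ∀ i j x, x ∈ Rich i j ↔ x ∈ Θ i ∧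
      g + 1 ≤ (Hv j x).card :=
    ⟨fun i j => (Θ i).filter (fun x => g + 1 ≤ (Hv j x).card),
      fun i j x => by rw [Finset.mem_filter]⟩
  by_cases hcase : ∃ i j, i < j ∧ j < n ∧ g + 1 ≤ (Rich i j).card
  · left
    obtain ⟨i, j, hij, hjn, hR⟩ := hcase
    obtain ⟨l, hl, hlR⟩ := exists_seq hR
    obtain ⟨z, hz, hzΘ⟩ := exists_seq (A := Θ n) (k := g) (by
      have h1 := hcard n le_rfl
      have h2 : g ≤ 2 * n * g := by
        calc g = 1 * g := (one_mul g).symm
          _ ≤ 2 * n * g := Nat.mul_le_mul_right _ (by omega)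
      omega)
    have hlΘ : ∀ a, l a ∈ Θ i := fun a => ((hRich i j _).1 (hlR a)).1
    refine sav_of_renew (C := C) hg l hl (W := Θ j) (H := fun a => Hv j (l a))
      (fun a v hv => hsep i j hij hjn.le _ (hlΘ a) _ hv) (fun a v hv => ((hHv _ _ _).1 hv).1)
      (fun a => ((hRich i j _).1 (hlR a)).2) ?_ z hz (fun a => hN n le_rfl _ (hzΘ a))
      (fun v hv a => hsep j n hjn le_rfl _ hv _ (hzΘ a)) ?_ ?_
    · intro a v hv v' hv' hlt
      obtain ⟨hvΘ, k, hjk, hkn, t, ht, hvt⟩ := (hHv _ _ _).1 hv
      exact lt_of_le_of_lt (hdead j k hjk hkn v' hv' v hvΘ hlt t ht) hvt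
    · intro b a hba y hy
      exact hdead i j hij hjn.le _ (hlΘ b) _ (hlΘ a) (hl hba) y hy
    · intro b a hba c
      exact hdead i n (lt_trans hij hjn) le_rfl _ (hlΘ b) _ (hlΘ a) (hl hba) _ (hzΘ c)
  · right
    have hpoor : ∀ i j, i < j → j < n → (Rich i j).card ≤ g := by
      intro i j h1 h2
      by_contra h3
      exact hcase ⟨i, j, h1, h2, by omega⟩
    have key : ∀ m, m ≤ n → ∃ q : ℕ → ℕ, (∀ i < m, q i ∈ Θ i ∧ ∀ j, i < j → j < n →
        q i ∉ Rich i j) ∧ ∀ k i, k < i → i < m → q i ∉ Hv i (q k) := by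
      intro m
      induction m with
      | zero => intro _; exact ⟨fun _ => 0, fun i hi => absurd hi (Nat.not_lt_zero _),
          fun k i _ hi => absurd hi (Nat.not_lt_zero _)⟩
      | succ m ih =>
        intro hm
        obtain ⟨q, hq1, hq2⟩ := ih (by omega)
        have hmn : m < n := by omega
        obtain ⟨Bad, hBad⟩ : ∃ Bad : Finset ℕ, Bad = ((Finset.Ioo m n).biUnion (Rich m)) ∪
            ((Finset.range m).biUnion (fun k => Hv m (q k))) := ⟨_, rfl⟩
        have hBc : Bad.card ≤ 2 * n * g := by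
          rw [hBad]
          refine le_trans (Finset.card_union_le _ _) ?_
          have h1 : ((Finset.Ioo m n).biUnion (Rich m)).card ≤ n * g := by
            refine le_trans (Finset.card_biUnion_le_card_mul _ _ g ?_) ?_
            · intro j hj
              exact hpoor m j (Finset.mem_Ioo.1 hj).1 (Finset.mem_Ioo.1 hj).2
            · apply Nat.mul_le_mul_right
              rw [Nat.card_Ioo]
              omega
          have h2 : ((Finset.range m).biUnion (fun k => Hv m (q k))).card ≤ n * g := by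
            refine le_trans (Finset.card_biUnion_le_card_mul _ _ g ?_) ?_
            · intro k hk
              have hk' := Finset.mem_range.1 hk
              have h3 := (hq1 k hk').2 m hk' hmn
              have h4 : ¬ g + 1 ≤ (Hv m (q k)).card := fun h5 =>
                h3 ((hRich k m _).2 ⟨(hq1 k hk').1, h5⟩)
              omega
            · apply Nat.mul_le_mul_right
              rw [Finset.card_range]
              omega
          have h3 : 2 * n * g = n * g + n * g := by ring
          omega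
        obtain ⟨v, hv, hvB⟩ : ∃ v ∈ Θ m, v ∉ Bad := by
          by_contra hall
          push Not at hall
          have h1 := Finset.card_le_card (show Θ m ⊆ Bad from hall)
          have h2 := hcard m hmn.le
          omega
        have hv1 : ∀ j, m < j → j < n → v ∉ Rich m j := by
          intro j h1 h2 h3
          apply hvB
          rw [hBad]
          exact Finset.mem_union_left _ (Finset.mem_biUnion.2 ⟨j, Finset.mem_Ioo.2 ⟨h1, h2⟩, h3⟩)
        have hv2 : ∀ k, k < m → v ∉ Hv m (q k) := by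
          intro k h1 h3
          apply hvB
          rw [hBad]
          exact Finset.mem_union_right _ (Finset.mem_biUnion.2 ⟨k, Finset.mem_range.2 h1, h3⟩)
        refine ⟨fun i => if i = m then v else q i, ?_, ?_⟩
        · intro i hi
          by_cases him : i = m
          · subst him
            simp only [if_true]
            exact ⟨hv, hv1⟩
          · simp only [if_neg him]
            exact hq1 i (by omega)
        · intro k i hki hi
          by_cases him : i = m
          · subst him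
            simp only [if_true, if_neg (Nat.ne_of_lt hki)]
            exact hv2 k hki
          · have hkm : k ≠ m := by omega
            simp only [if_neg him, if_neg hkm]
            exact hq2 k i hki (by omega)
    obtain ⟨q, hq1, hq2⟩ := key n le_rfl
    refine ⟨q, fun i hi => (hq1 i hi).1, ?_⟩
    intro j i k hji hik hkn
    by_contra h
    push Not at h
    exact hq2 j i hji (by omega) ((hHv _ _ _).2 ⟨(hq1 i (by omega)).1, k, hik, hkn.le, q k,
      (hq1 k hkn).1, h⟩)

end Pool.Agent.Lib.MP_293cc0_an.A
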